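import Pool.Agent.H32.Cheb

set_option autoImplicit false

namespace Pool.Agent.Results.MP_9b1654_pr.MLFails

open Filter Topology Finset Pool.Agent.H32.Cheb

noncomputable section

/-- Unordered pairs `{u,v}` of distinct vertices of `[n]`, written with `u < v`. -/
abbrev Pair (n : ℕ) := {e : Fin n × Fin n // e.1 < e.2}

/-- A graph on `[n]`: the indicator function of its edge set. -/
abbrev Gr (n : ℕ) := Pair n → Bool

section defs

variable {k : ℕ} (π : Fin k → ℝ) (M : Fin k → Fin k → ℝ)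

/-- `P(G | σ)`: each pair `{u,v}` is an edge independently with probability
`min(1, M(σ u, σ v) / n)`. -/
def lik {n : ℕ} (σ : Fin n → Fin k) (g : Gr n) : ℝ :=
  ∏ e, if g e then min 1 (M (σ e.1.1) (σ e.1.2) / n) else 1 - min 1 (M (σ e.1.1) (σ e.1.2) / n)

open Classical in
/-- Probability of an event in `SBM(n,k,π,M)`; labels are i.i.d. with law `π`. -/
def prob (n : ℕ) (A : (Fin n → Fin k) → Gr n → Prop) : ℝ :=
  ∑ σ, ∑ g, if A σ g then (∏ v, π (σ v)) * lik M σ g else 0

/-- Overlap of a labelling `σ'` with the truth `σ`. -/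
def ov {n : ℕ} (σ' σ : Fin n → Fin k) : ℝ :=
  ⨆ τ : Equiv.Perm (Fin k), ((univ.filter fun v => τ (σ' v) = σ v).card : ℝ) / n

/-- The estimator achieves non-trivial correlation at `(k,π,M)`. -/
def Achieves (est : ∀ n, Gr n → Fin n → Fin k) : Prop :=
  ∃ ε : ℝ, 0 < ε ∧
    Tendsto (fun n => prob π M n fun σ g => (⨆ i, π i) + ε ≤ ov (est n g) σ) atTop (𝓝 1)

/-- The estimator is a maximum-likelihood estimator (any tie-breaking). -/
def IsML (est : ∀ n, Gr n → Fin n → Fin k) : Prop :=
  ∀ n g σ', lik M σ' g ≤ lik M (est n g) g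

end defs

def p0 : Fin 3 → ℝ := ![4 / 5, 1 / 10, 1 / 10]

def dg (i : Fin 3) : ℝ := if i = 2 then 100 else 1 / 1000

def M0 (i j : Fin 3) : ℝ := if i = j then dg i else 0

variable {n : ℕ}

def ww (σ : Fin n → Fin 3) (e : Pair n) (x : Bool) : ℝ :=
  if x then min 1 (M0 (σ e.1.1) (σ e.1.2) / n) else 1 - min 1 (M0 (σ e.1.1) (σ e.1.2) / n)

lemma M0_nonneg (i j : Fin 3) : 0 ≤ M0 i j := by
  unfold M0 dg
  split_ifs <;> norm_num

lemma ww0 (σ : Fin n → Fin 3) (e : Pair n) (x : Bool) : 0 ≤ ww σ e x := by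
  unfold ww
  split_ifs
  · exact le_min zero_le_one (div_nonneg (M0_nonneg _ _) (by positivity))
  · exact sub_nonneg.2 (min_le_left _ _)

lemma ww1 (σ : Fin n → Fin 3) (e : Pair n) : ∑ x, ww σ e x = 1 := by simp [ww]

lemma p00 (i : Fin 3) : 0 ≤ p0 i := by fin_cases i <;> simp [p0] <;> norm_num

lemma p01 : ∑ i, p0 i = 1 := by
  simp [p0, Fin.sum_univ_three]
  norm_num

lemma lik0 (σ : Fin n → Fin 3) (g : Gr n) : 0 ≤ lik M0 σ g := prod_nonneg fun e _ => ww0 σ e _

lemma wt0 (σ : Fin n → Fin 3) (g : Gr n) : 0 ≤ (∏ v, p0 (σ v)) * lik M0 σ g :=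
  mul_nonneg (prod_nonneg fun _ _ => p00 _) (lik0 σ g)

lemma lik1 (σ : Fin n → Fin 3) : ∑ g, lik M0 σ g = 1 := total (ww σ) (ww1 σ)

lemma prob_compl (A : (Fin n → Fin 3) → Gr n → Prop) :
    prob p0 M0 n A + prob p0 M0 n (fun σ g => ¬ A σ g) = 1 := by
  rw [← total (fun (_ : Fin n) => p0) fun _ => p01, prob, prob, ← sum_add_distrib]
  refine sum_congr rfl fun σ _ => ?_
  rw [← sum_add_distrib]
  refine Eq.trans (sum_congr rfl fun g _ => ?_) (by rw [← mul_sum, lik1 σ, mul_one])
  by_cases h : A σ g <;> simp [h]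

lemma prob0 (A : (Fin n → Fin 3) → Gr n → Prop) : 0 ≤ prob p0 M0 n A :=
  sum_nonneg fun σ _ => sum_nonneg fun g _ => by
    split_ifs
    exacts [wt0 σ g, le_rfl]

lemma prob_or {A B C : (Fin n → Fin 3) → Gr n → Prop} (h : ∀ σ g, A σ g → B σ g ∨ C σ g) :
    prob p0 M0 n A ≤ prob p0 M0 n B + prob p0 M0 n C := by
  rw [prob, prob, prob, ← sum_add_distrib]
  refine sum_le_sum fun σ _ => ?_
  rw [← sum_add_distrib]
  refine sum_le_sum fun g _ => ?_
  have := wt0 σ g
  have := h σ g
  split_ifs <;> first | linarith | tauto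

def nz (σ : Fin n → Fin 3) (c : Fin 3) : ℝ := (univ.filter fun v => σ v ≠ c).card

def xx (σ : Fin n → Fin 3) (g : Gr n) : ℝ :=
  (univ.filter fun e : Pair n => (σ e.1.1 = 0 ∨ σ e.1.2 = 0) ∧ g e).card

def yy (σ : Fin n → Fin 3) (g : Gr n) : ℝ :=
  (univ.filter fun v => σ v = 2 ∧ ∀ e : Pair n, e.1.1 = v → σ e.1.2 = 2 → g e = false).card

lemma nz_tail (c : Fin 3) {t : ℝ} (ht : 0 < t) :
    prob p0 M0 n (fun σ _ => n * (1 - p0 c) + t ≤ nz σ c) ≤ n * (1 - p0 c) / t ^ 2 := by
  refine le_trans (le_of_eq (sum_congr rfl fun σ _ => ?_)) (cheb (fun (_ : Fin n) => p0)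
    (fun _ => p00) (fun _ => p01) (fun _ x => if x ≠ c then 1 else 0)
    (fun _ x => by split_ifs <;> simp) univ (fun v => {v}) (fun i _ j _ h => by simpa using h) ?_ ht
    (fun σ => n * (1 - p0 c) + t ≤ nz σ c) fun σ h => by simpa [nz, sum_ite] using h)
  · split_ifs
    · rw [← mul_sum, lik1, mul_one]
    · simp
  · have : ∑ x, p0 x * (if x ≠ c then 1 else 0) = 1 - p0 c := by
      fin_cases c <;> simp [Fin.sum_univ_three, p0] <;> norm_num
    simp only [prod_singleton, this, sum_const, card_univ, Fintype.card_fin, nsmul_eq_mul, le_refl]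

lemma cond_tail {A : (Fin n → Fin 3) → Gr n → Prop} [∀ σ g, Decidable (A σ g)] {c : ℝ}
    (h : ∀ σ, ∑ g, (if A σ g then ∏ e, ww σ e (g e) else 0) ≤ c) : prob p0 M0 n A ≤ c := by
  rw [← one_mul c, ← total (fun (_ : Fin n) => p0) fun _ => p01, sum_mul]
  refine sum_le_sum fun σ _ => le_trans (le_of_eq ?_)
    (mul_le_mul_of_nonneg_left (h σ) (prod_nonneg fun _ _ => p00 _))
  rw [mul_sum]
  refine sum_congr rfl fun g _ => ?_
  by_cases h : A σ g <;> simp [h, lik, ww]

lemma xx_tail (hn : 0 < n) {t : ℝ} (ht : 0 < t) :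
    prob p0 M0 n (fun σ g => n / 1000 + t ≤ xx σ g) ≤ n / 1000 / t ^ 2 := by
  have hn' : (0 : ℝ) < n := by exact_mod_cast hn
  refine cond_tail fun σ => cheb (ww σ) (ww0 σ) (ww1 σ) (fun _ x => if x then 1 else 0)
    (fun _ x => by split_ifs <;> simp) (univ.filter fun e : Pair n => σ e.1.1 = 0 ∨ σ e.1.2 = 0)
    (fun v => {v}) (fun i _ j _ h => by simpa using h) ?_ ht _ fun g h => ?_
  · refine (sum_le_card_nsmul _ _ (1 / 1000 / (n : ℝ)) fun e he => ?_).trans ?_
    · have : M0 (σ e.1.1) (σ e.1.2) ≤ 1 / 1000 := by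
        rcases (mem_filter.1 he).2 with h | h <;> rw [h]
        · generalize σ e.1.2 = z
          fin_cases z <;> simp [M0, dg]
        · generalize σ e.1.1 = z
          fin_cases z <;> simp [M0, dg]
      simp only [prod_singleton, Fintype.sum_bool, ww, if_true, mul_one, Bool.false_eq_true,
        if_false, mul_zero, add_zero]
      exact (min_le_right _ _).trans (div_le_div_of_nonneg_right this hn'.le)
    · have h1 := (card_le_univ (univ.filter fun e : Pair n => σ e.1.1 = 0 ∨ σ e.1.2 = 0)).trans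
        (Fintype.card_subtype_le _)
      rw [Fintype.card_prod, Fintype.card_fin] at h1
      have h2 : ((univ.filter fun e : Pair n => σ e.1.1 = 0 ∨ σ e.1.2 = 0).card : ℝ) ≤ n * n := by
        exact_mod_cast h1
      rw [nsmul_eq_mul]
      refine (mul_le_mul_of_nonneg_right h2 (by positivity)).trans (le_of_eq ?_)
      field_simp
  · simpa [xx, sum_ite, filter_filter] using h

lemma yy_tail (hn : 100 < n) {t : ℝ} (ht : 0 < t) :
    prob p0 M0 n (fun σ g => n / 100 + t ≤ yy σ g) ≤ n / 100 / t ^ 2 := by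
  have hn' : (100 : ℝ) < n := by exact_mod_cast hn
  have q1 : (100 : ℝ) / n < 1 := by rwa [div_lt_one (by linarith)]
  have q0 : (0 : ℝ) < 100 / n := by positivity
  refine cond_tail fun σ => cheb (ww σ) (ww0 σ) (ww1 σ) (fun _ x => if x then 0 else 1)
    (fun _ x => by split_ifs <;> simp) (univ.filter fun v => σ v = 2)
    (fun v => univ.filter fun e : Pair n => e.1.1 = v ∧ σ e.1.2 = 2)
    (fun i _ j _ h => disjoint_filter.2 fun e _ h1 h2 => h (h1.1.symm.trans h2.1)) ?_ ht _ fun g h => ?_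
  · set c : Fin n → ℕ := fun v => (univ.filter fun u => v < u ∧ σ u = 2).card with hc
    have h1 : ∀ v ∈ univ.filter fun v => σ v = 2,
        ∏ e ∈ univ.filter fun e : Pair n => e.1.1 = v ∧ σ e.1.2 = 2,
          ∑ x, ww σ e x * (if x then 0 else 1) = (1 - 100 / n) ^ c v := by
      intro v hv
      rw [prod_congr rfl (g := fun _ => 1 - 100 / (n : ℝ)), prod_const]
      · congr 1
        refine card_bij (fun e _ => e.1.2) (fun e he => ?_) (fun e he e' he' h => ?_) fun u hu => ?_
        · have := (mem_filter.1 he).2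
          exact mem_filter.2 ⟨mem_univ _, this.1 ▸ e.2, this.2⟩
        · exact Subtype.ext (Prod.ext ((mem_filter.1 he).2.1.trans (mem_filter.1 he').2.1.symm) h)
        · exact ⟨⟨(v, u), (mem_filter.1 hu).2.1⟩, by simpa using (mem_filter.1 hu).2.2, rfl⟩
      · intro e he
        have := (mem_filter.1 he).2
        simp [ww, this.1, this.2, (mem_filter.1 hv).2, M0, dg, q1.le]
    have h2 : ∀ u v, σ v = 2 → u < v → c v < c u := fun u v hv huv =>
      card_lt_card ⟨fun z hz => by
        simp only [mem_filter, mem_univ, true_and] at hz ⊢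
        exact ⟨huv.trans hz.1, hz.2⟩, fun h => by simpa using h (x := v) (by simp [huv, hv])⟩
    rw [sum_congr rfl h1, ← sum_image (g := c) (f := fun j => (1 - 100 / (n : ℝ)) ^ j)]
    · refine (sum_le_hasSum _ (fun j _ => pow_nonneg (by linarith) j)
        (hasSum_geometric_of_lt_one (by linarith) (by linarith))).trans (le_of_eq ?_)
      simp
    · intro u hu v hv e
      rcases lt_trichotomy u v with h | h | h
      · exact absurd e (h2 u v (by simpa using hv) h).ne'
      · exact h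
      · exact absurd e (h2 v u (by simpa using hu) h).ne
  · refine h.trans (le_of_eq ?_)
    rw [yy, ← filter_filter, card_filter]
    push_cast
    refine sum_congr rfl fun v _ => ?_
    split_ifs with h
    · exact (prod_eq_one fun e he => by simp [h e (mem_filter.1 he).2.1 (mem_filter.1 he).2.2]).symm
    · simp only [not_forall] at h
      obtain ⟨e, h1, h2, h3⟩ := h
      exact (prod_eq_zero (mem_filter.2 ⟨mem_univ e, h1, h2⟩) (by simpa using h3)).symm

def Good (σ : Fin n → Fin 3) (g : Gr n) : Prop :=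
  nz σ 0 < 201 / 1000 * n ∧ nz σ 2 < 901 / 1000 * n ∧ xx σ g < 2 / 1000 * n ∧ yy σ g < 11 / 1000 * n

lemma bad_le (hn : 100 < n) : prob p0 M0 n (fun σ g => ¬ Good σ g) ≤ 2000000 / n := by
  have hn' : (100 : ℝ) < n := by exact_mod_cast hn
  have ht : (0 : ℝ) < n / 1000 := by positivity
  have h1 := nz_tail (n := n) 0 ht
  have h2 := nz_tail (n := n) 2 ht
  have h3 := xx_tail (n := n) (by omega) ht
  have h4 := yy_tail hn ht
  have e0 : p0 0 = 4 / 5 := rfl
  have e2 : p0 2 = 1 / 10 := rfl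
  rw [e0] at h1
  rw [e2] at h2
  have k1 := prob_or (n := n) (A := fun σ g => ¬ Good σ g)
    (B := fun σ _ => n * (1 - 4 / 5) + n / 1000 ≤ nz σ 0 ∨ n * (1 - 1 / 10) + n / 1000 ≤ nz σ 2)
    (C := fun σ g => n / 1000 + n / 1000 ≤ xx σ g ∨ n / 100 + n / 1000 ≤ yy σ g) fun σ g h => by
      by_contra hc
      simp only [not_or, not_le] at hc
      exact h ⟨by linarith [hc.1.1], by linarith [hc.1.2], by linarith [hc.2.1], by linarith [hc.2.2]⟩
  have k2 := prob_or (n := n) (A := fun σ _ => n * (1 - 4 / 5) + n / 1000 ≤ nz σ 0 ∨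
    n * (1 - 1 / 10) + n / 1000 ≤ nz σ 2) fun _ _ h => h
  have k3 := prob_or (n := n) (A := fun σ g => n / 1000 + n / 1000 ≤ xx σ g ∨
    n / 100 + n / 1000 ≤ yy σ g) fun _ _ h => h
  have e : (n : ℝ) * (1 - 4 / 5) / (n / 1000) ^ 2 + n * (1 - 1 / 10) / (n / 1000) ^ 2 +
      (n / 1000 / (n / 1000) ^ 2 + n / 100 / (n / 1000) ^ 2) = 1111000 / n := by
    field_simp
    ring
  have : (1111000 : ℝ) / n ≤ 2000000 / n := div_le_div_of_nonneg_right (by norm_num) (by linarith)
  linarith

lemma bad_zero {A : ∀ n, (Fin n → Fin 3) → Gr n → Prop}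
    (h : ∀ n, 100 < n → ∀ σ g, Good σ g → ¬ A n σ g) :
    Tendsto (fun n => prob p0 M0 n (A n)) atTop (𝓝 0) := by
  refine squeeze_zero' (Eventually.of_forall fun n => prob0 _) ?_
    (tendsto_const_div_atTop_nhds_zero_nat (2000000 : ℝ))
  filter_upwards [eventually_gt_atTop 100] with n hn
  have h1 := prob_or (A := A n) (B := fun σ g => ¬ Good σ g) (C := fun _ _ => False)
    fun σ g h1 => Or.inl fun h2 => h n hn σ g h2 h1
  have h2 : prob p0 M0 n (fun _ _ => False) = 0 := by simp [prob]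
  linarith [bad_le hn]

def Iso (g : Gr n) (v : Fin n) : Prop := ∀ e : Pair n, e.1.1 = v ∨ e.1.2 = v → g e = false

instance (g : Gr n) : DecidablePred (Iso g) := fun _ => by unfold Iso; infer_instance

lemma noniso (σ : Fin n → Fin 3) (g : Gr n) :
    ((univ.filter fun v => σ v = 0 ∧ ¬ Iso g v).card : ℝ) ≤ 2 * xx σ g := by
  have h1 : (univ.filter fun v => σ v = 0 ∧ ¬ Iso g v) ⊆
      (univ.filter fun e : Pair n => (σ e.1.1 = 0 ∨ σ e.1.2 = 0) ∧ g e).biUnion
        fun e => {e.1.1, e.1.2} := by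
    intro v hv
    obtain ⟨-, h0, h1⟩ := mem_filter.1 hv
    simp only [Iso, not_forall] at h1
    obtain ⟨e, h1, h2⟩ := h1
    refine mem_biUnion.2 ⟨e, mem_filter.2 ⟨mem_univ _, ?_, by simpa using h2⟩, ?_⟩
    · exact h1.imp (fun h => by rw [h, h0]) fun h => by rw [h, h0]
    · rcases h1 with h | h <;> simp [h]
  have h2 := (card_le_card h1).trans (card_biUnion_le_card_mul _ _ 2 fun _ _ => card_le_two)
  rw [xx, mul_comm]
  exact_mod_cast h2

lemma split (σ : Fin n → Fin 3) (c : Fin 3) :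
    ((univ.filter fun v => σ v = c).card : ℝ) + nz σ c = n := by
  have := card_filter_add_card_filter_not (s := univ) fun v => σ v = c
  rw [card_univ, Fintype.card_fin] at this
  unfold nz
  exact_mod_cast this

def est0 (n : ℕ) (g : Gr n) (v : Fin n) : Fin 3 := if Iso g v then 0 else 2

lemma est_good (hn : 100 < n) {σ : Fin n → Fin 3} {g : Gr n} (h : Good σ g) :
    4 / 5 + 1 / 20 ≤ ov (est0 n g) σ := by
  have hn' : (100 : ℝ) < n := by exact_mod_cast hn
  refine le_trans ?_ (le_ciSup (Finite.bddAbove_range _) 1)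
  rw [le_div_iff₀ (by linarith)]
  have h1 := noniso σ g
  have h2 := split σ 0
  have h3 := split σ 2
  have h4 : (univ.filter fun v => σ v = 0).card + (univ.filter fun v => σ v = 2).card ≤
      (univ.filter fun v => (1 : Equiv.Perm (Fin 3)) (est0 n g v) = σ v).card +
      (univ.filter fun v => σ v = 0 ∧ ¬ Iso g v).card + (univ.filter fun v => σ v = 2 ∧
        ∀ e : Pair n, e.1.1 = v → σ e.1.2 = 2 → g e = false).card := by
    rw [← card_union_of_disjoint (disjoint_filter.2 fun v _ h1 h2 => by simp [h1] at h2)]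
    refine le_trans (card_le_card fun v hv => ?_) ((card_union_le _ _).trans
      (Nat.add_le_add_right (card_union_le _ _) _))
    simp only [mem_union, mem_filter, mem_univ, true_and, Equiv.Perm.coe_one, id, est0] at hv ⊢
    by_cases hi : Iso g v
    · rcases hv with hv | hv
      · simp [hi, hv]
      · exact Or.inr ⟨hv, fun e h1 _ => hi e (Or.inl h1)⟩
    · rcases hv with hv | hv <;> simp [hi, hv]
  have h5 := (Nat.cast_le (α := ℝ)).2 h4
  simp only [Nat.cast_add] at h5
  obtain ⟨g1, g2, g3, g4⟩ := h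
  unfold yy at g4
  linarith

lemma lik_split {σ : Fin n → Fin 3} {g : Gr n} {v : Fin n} (hi : Iso g v) (j : Fin 3) :
    lik M0 (Function.update σ v j) g =
      (∏ e ∈ univ.filter fun e : Pair n => ¬ (e.1.1 = v ∨ e.1.2 = v), ww σ e (g e)) *
        (1 - min 1 (dg j / n)) ^ ((univ.erase v).filter fun u => σ u = j).card := by
  rw [lik, ← prod_filter_not_mul_prod_filter univ fun e : Pair n => e.1.1 = v ∨ e.1.2 = v]
  congr 1
  · refine prod_congr rfl fun e he => ?_
    have := not_or.1 (mem_filter.1 he).2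
    simp only [ww, Function.update_of_ne this.1, Function.update_of_ne this.2]
  · rw [← prod_const, prod_filter (s := univ.erase v)]
    refine prod_bij (fun e _ => if e.1.1 = v then e.1.2 else e.1.1) (fun e he => ?_)
      (fun e he e' he' h => ?_) (fun u hu => ?_) fun e he => ?_
    · have := e.2
      split_ifs with h
      · exact mem_erase.2 ⟨h ▸ this.ne', mem_univ _⟩
      · exact mem_erase.2 ⟨h, mem_univ _⟩
    · have h1 := (mem_filter.1 he).2
      have h2 := (mem_filter.1 he').2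
      have := e.2
      have := e'.2
      refine Subtype.ext (Prod.ext ?_ ?_) <;> split_ifs at h <;> omega
    · rcases lt_or_gt_of_ne (mem_erase.1 hu).1 with h | h
      · exact ⟨⟨(u, v), h⟩, by simp, by simp [h.ne]⟩
      · exact ⟨⟨(v, u), h⟩, by simp, by simp⟩
    · have h1 := (mem_filter.1 he).2
      have h2 := e.2
      rw [hi e h1]
      by_cases h : e.1.1 = v
      · have h3 : e.1.2 ≠ v := h ▸ h2.ne'
        simp only [h, Function.update_self, Function.update_of_ne h3, M0, eq_comm (a := j)]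
        split_ifs <;> simp_all
      · have h3 : e.1.2 = v := h1.resolve_left h
        simp only [h, h3, Function.update_self, Function.update_of_ne h, M0]
        split_ifs <;> simp_all

lemma ml_class (hn : 100 < n) {σ : Fin n → Fin 3} {g : Gr n} (h : ∀ σ', lik M0 σ' g ≤ lik M0 σ g)
    {v : Fin n} (hi : Iso g v) : 2 * (univ.filter fun u => σ u = σ v).card ≤ n + 1 := by
  have hn' : (100 : ℝ) < n := by exact_mod_cast hn
  have q1 : (100 : ℝ) / n < 1 := by rwa [div_lt_one (by linarith)]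
  have q0 : (0 : ℝ) < 1 / 1000 / n := by positivity
  have q2 : (1 : ℝ) / 1000 / n ≤ 100 / n := div_le_div_of_nonneg_right (by norm_num) (by linarith)
  have hpos : 0 < lik M0 σ g := lt_of_lt_of_le (prod_pos fun e _ => by
    simp only [M0, dg, if_true, min_eq_right q1.le]
    split_ifs <;> linarith) (h fun _ => 2)
  obtain ⟨j, j1, j2⟩ : ∃ j, j ≠ σ v ∧ dg j = 1 / 1000 := by
    by_cases h0 : σ v = 0
    · exact ⟨1, by simp [h0], by simp [dg]⟩
    · exact ⟨0, Ne.symm h0, by simp [dg]⟩
  have h1 := h (Function.update σ v j)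
  have h2 := lik_split (σ := σ) hi (σ v)
  rw [Function.update_eq_self] at h2
  rw [h2] at hpos
  rw [lik_split hi, h2, j2, min_eq_right (by linarith)] at h1
  have h3 := le_of_mul_le_mul_left h1 (lt_of_le_of_ne (prod_nonneg fun e _ => ww0 σ e _)
    (left_ne_zero_of_mul hpos.ne').symm)
  have h4 : 1 / 1000 / (n : ℝ) ≤ min 1 (dg (σ v) / n) := by
    refine le_min (by linarith) ?_
    unfold dg
    split_ifs
    exacts [q2, le_rfl]
  have h5 := (pow_le_pow_iff_right_of_lt_one₀ (by linarith) (by linarith)).1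
    (h3.trans (pow_le_pow_left₀ (sub_nonneg.2 (min_le_left _ _)) (sub_le_sub_left h4 1) _))
  have h6 := card_le_card (s := ((univ.erase v).filter fun u => σ u = j) ∪
    (univ.filter fun u => σ u = σ v)) (subset_univ _)
  rw [card_union_of_disjoint (disjoint_left.2 fun u h1 h2 =>
    j1 ((mem_filter.1 h1).2.symm.trans (mem_filter.1 h2).2)), card_univ, Fintype.card_fin] at h6
  rw [filter_erase, card_erase_of_mem (by simp)] at h5
  omega

lemma ml_bad (hn : 100 < n) {σ σ' : Fin n → Fin 3} {g : Gr n}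
    (h : ∀ σ'', lik M0 σ'' g ≤ lik M0 σ' g) (hg : Good σ g) : ov σ' σ ≤ 4 / 5 := by
  have hn' : (100 : ℝ) < n := by exact_mod_cast hn
  refine ciSup_le fun τ => ?_
  rw [div_le_iff₀ (by linarith)]
  have h1 : (univ.filter fun v => τ (σ' v) = σ v).card ≤
      (univ.filter fun v => σ' v = τ.symm 0).card + (univ.filter fun v => σ v ≠ 0).card := by
    refine le_trans (card_le_card fun v hv => ?_) (card_union_le _ _)
    simp only [mem_union, mem_filter, mem_univ, true_and, Equiv.eq_symm_apply] at hv ⊢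
    rw [hv]
    exact em _
  have h2 := (Nat.cast_le (α := ℝ)).2 h1
  push_cast at h2
  obtain ⟨g1, -, g3, -⟩ := hg
  by_cases hv : ∃ v, Iso g v ∧ σ' v = τ.symm 0
  · obtain ⟨v, h3, h4⟩ := hv
    have h5 := (Nat.cast_le (α := ℝ)).2 (ml_class hn h h3)
    rw [h4] at h5
    push_cast at h5
    unfold nz at g1
    linarith
  · have h3 : (univ.filter fun v => σ' v = τ.symm 0).card ≤
        (univ.filter fun v => σ v = 0 ∧ ¬ Iso g v).card + (univ.filter fun v => σ v ≠ 0).card := by
      refine le_trans (card_le_card fun v h4 => ?_) (card_union_le _ _)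
      simp only [mem_union, mem_filter, mem_univ, true_and] at h4 ⊢
      have : ¬ Iso g v := fun h5 => hv ⟨v, h5, h4⟩
      tauto
    have h5 := (Nat.cast_le (α := ℝ)).2 h3
    push_cast at h5
    have := noniso σ g
    unfold nz at g1
    linarith

lemma sup_eq : ⨆ i, p0 i = 4 / 5 :=
  le_antisymm (ciSup_le fun i => by fin_cases i <;> simp [p0] <;> norm_num)
    (le_ciSup (Finite.bddAbove_range p0) 0)

theorem result : ∃ (k : ℕ) (π : Fin k → ℝ) (M : Fin k → Fin k → ℝ),
    2 ≤ k ∧ (∀ i, 0 < π i) ∧ ∑ i, π i = 1 ∧ (∀ i j, 0 ≤ M i j ∧ M i j = M j i) ∧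
    (∃ est, Achieves π M est) ∧ (∃ est, IsML M est) ∧ ∀ est, IsML M est → ¬ Achieves π M est := by
  refine ⟨3, p0, M0, by norm_num, fun i => by fin_cases i <;> simp [p0], p01,
    fun i j => ⟨M0_nonneg i j, ?_⟩, ⟨est0, 1 / 20, by norm_num, ?_⟩, ?_, ?_⟩
  · unfold M0
    split_ifs with h1 h2 h2
    exacts [by rw [h1], absurd h1.symm h2, absurd h2.symm h1, rfl]
  · have := (bad_zero (A := fun n σ g => ¬ (⨆ i, p0 i) + 1 / 20 ≤ ov (est0 n g) σ)
      fun n hn σ g hg h => h (sup_eq ▸ est_good hn hg)).const_sub 1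
    rw [sub_zero] at this
    exact this.congr fun n => by linarith [prob_compl fun σ g => (⨆ i, p0 i) + 1 / 20 ≤ ov (est0 n g) σ]
  · choose est h using fun n (g : Gr n) => Finite.exists_max fun σ : Fin n → Fin 3 => lik M0 σ g
    exact ⟨est, h⟩
  · rintro est h ⟨ε, h1, h2⟩
    have := bad_zero (A := fun n σ g => (⨆ i, p0 i) + ε ≤ ov (est n g) σ) fun n hn σ g hg h3 => by
      linarith [ml_bad hn (h n g) hg, sup_eq]
    simpa using tendsto_nhds_unique h2 this

end

end Pool.Agent.Results.MP_9b1654_pr.MLFails
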